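import Pool.Agent.L7h52.NQ.Stm
import Pool.Agent.TH603.Sur.Rows

/-!
# Project NQ, part SUR (helper23): independence from emptiness, by counting
-/

namespace Pool.Agent.L7h23.NQ

open Finset Pool.Agent.L7h52.NQ
open Pool.Agent.TH176.Nag (Emp)
open Pool.Agent.TH603.Sur (Sur TZ TZ_finite sum_range_sub)

theorem sum_hh (d : ℕ) : ∑ j ∈ range (d / 4 + 1), hh (d - 4 * j) = (d + 2).choose 2 := by
  induction d using Nat.strong_induction_on with
  | _ d ih =>
    rcases Nat.lt_or_ge d 4 with h | h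
    · interval_cases d <;> rfl
    · obtain ⟨e, rfl⟩ : ∃ e, d = e + 4 := ⟨d - 4, by omega⟩
      have h1 : (e + 4) / 4 + 1 = (e / 4 + 1) + 1 := by omega
      rw [h1, sum_range_succ']
      have h2 : ∀ j : ℕ, e + 4 - 4 * (j + 1) = e - 4 * j := fun j => by omega
      simp only [h2]
      rw [ih e (by omega)]
      have h3 : hh (e + 4 - 4 * 0) = 4 * e + 14 := by
        unfold hh
        rw [if_neg (by omega), if_neg (by omega)]
        omega
      rw [h3]
      have c1 : (e + 2).choose 2 * 2 = (e + 2) * (e + 1) := by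
        rw [Nat.choose_two_right, Nat.div_mul_cancel (Nat.even_mul_pred_self (e + 2)).two_dvd]
        rfl
      have c2 : (e + 4 + 2).choose 2 * 2 = (e + 4 + 2) * (e + 5) := by
        rw [Nat.choose_two_right, Nat.div_mul_cancel (Nat.even_mul_pred_self (e + 4 + 2)).two_dvd]
        rfl
      nlinarith

theorem card_row {τ : ℝ} (hirr : Irrational τ) {h : ℕ} (h1 : 1 ≤ h) :
    (Icc ⌈-(τ * h)⌉ ⌊(1 - τ) * h⌋).card ≤ h := by
  have hy : Irrational (-(τ * h)) := (hirr.mul_natCast (by omega)).neg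
  have e1 : (1 - τ) * h = -(τ * h) + ((h : ℤ) : ℝ) := by
    push_cast
    ring
  rw [e1, Int.floor_add_intCast, Int.card_Icc]
  have h2 : ⌊-(τ * h)⌋ < ⌈-(τ * h)⌉ := by
    rw [Int.lt_ceil]
    exact lt_of_le_of_ne (Int.floor_le _) fun h3 => hy ⟨(⌊-(τ * h)⌋ : ℤ), by exact_mod_cast h3⟩
  omega

theorem hh_pos (e : ℕ) : 1 ≤ hh e := by
  unfold hh
  split_ifs <;> omega

theorem exists_fin {τ : ℝ} (hirr : Irrational τ) (d : ℕ) :
    ∃ A : Finset (ℤ × ℤ), (↑A : Set (ℤ × ℤ)) = E4 τ d ∧ A.card ≤ (d + 2).choose 2 := by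
  classical
  refine ⟨(range (d / 4 + 1)).biUnion fun j =>
    (Icc ⌈-(τ * hh (d - 4 * j))⌉ ⌊(1 - τ) * hh (d - 4 * j)⌋).image fun i => (i, (j : ℤ)), ?_, ?_⟩
  · ext ⟨i, j⟩
    rw [mem_coe, mem_biUnion]
    constructor
    · rintro ⟨l, hl, hi⟩
      rw [mem_image] at hi
      obtain ⟨i', hi', he⟩ := hi
      rw [Prod.mk.injEq] at he
      obtain ⟨rfl, rfl⟩ := he
      rw [mem_range] at hl
      rw [mem_Icc, Int.ceil_le, Int.le_floor] at hi'
      refine ⟨by simp only; omega, by simp only; omega, ?_, ?_⟩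
      · simp only [Int.toNat_natCast]
        exact hi'.1
      · simp only [Int.toNat_natCast]
        exact hi'.2
    · rintro ⟨g1, g2, g3, g4⟩
      simp only at g1 g2 g3 g4
      refine ⟨j.toNat, ?_, ?_⟩
      · rw [mem_range]
        omega
      · rw [mem_image]
        refine ⟨i, ?_, ?_⟩
        · rw [mem_Icc, Int.ceil_le, Int.le_floor]
          exact ⟨g3, g4⟩
        · rw [Int.toNat_of_nonneg g1]
  · refine card_biUnion_le.trans ?_
    rw [← sum_hh d]
    refine sum_le_sum fun j _ => card_image_le.trans (card_row hirr (hh_pos _))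

theorem card_TZ (d : ℕ) : (d + 2).choose 2 ≤ (TZ_finite d).toFinset.card := by
  classical
  have h1 : ((range (d + 1)).sigma fun b => range (d + 1 - b)).card = (d + 2).choose 2 := by
    rw [card_sigma]
    simp only [card_range]
    exact sum_range_sub (d + 1) (d + 1) le_rfl
  rw [← h1]
  refine card_le_card_of_injOn (fun p => ((p.2 : ℤ), (p.1 : ℤ))) ?_ ?_
  · intro p hp
    rw [mem_coe, mem_sigma, mem_range, mem_range] at hp
    rw [Set.Finite.coe_toFinset]
    refine ⟨by simp only; omega, by simp only; omega, by simp only; omega⟩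
  · rintro ⟨a, b⟩ _ ⟨a', b'⟩ _ h
    simp only [Prod.mk.injEq, Nat.cast_inj] at h
    obtain ⟨rfl, rfl⟩ := h
    rfl

theorem s_SUR (hE : S_EMP) : S_SUR := by
  intro ι _ w d τ h0 h1 hirr h
  obtain ⟨A, hA, hAc⟩ := exists_fin hirr d
  rw [← hA] at h
  rw [← (TZ_finite d).coe_toFinset]
  refine Pool.Agent.TH603.Sur.Sur.transfer (hAc.trans (card_TZ d)) (fun κ v hv => ?_) h
  rw [(TZ_finite d).coe_toFinset]
  rw [hA] at hv
  exact hE κ v d τ h0 h1 hv

end Pool.Agent.L7h23.NQ
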