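import Pool.Agent.L7h52.NQ.Stm
import Pool.Agent.TH603.EL.Key

/-!
# Project NQ, part EMP (helper23): the key lemma for the tube around the quartic
-/

namespace Pool.Agent.L7h23.NQ

open MvPolynomial Pool.Agent.TH603.EL Pool.Agent.L7h52.NQ
open Pool.Agent.TH176.Nag (Emp)
open Pool.Agent.TH603.Sur (TZ)

variable {F : Type} [Field F]

/-- the coefficient of `t ^ (k τ)`, `k ≤ 1` -/
theorem th_coeff (hΘ : S_THETA) {τ s : ℝ} (h0 : 0 < τ) (h1 : τ < 1 / 2) (hs : 1 ≤ s)
    (P : MvPolynomial (Fin 2) F) (k : ℕ) (hk : k ≤ 1) :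
    (th F τ s (map (cst F) P)).coeff (k * τ) =
      AddMonoidAlgebra.single ((k : ℤ), (0 : ℤ)) (P.coeff (Finsupp.single 0 k)) := by
  classical
  have hk1 : (k : ℝ) ≤ 1 := by exact_mod_cast hk
  have hkτ : (k : ℝ) * τ ≤ τ := by nlinarith
  ext m
  obtain ⟨i, j⟩ := m
  have e1 := hΘ F τ s (map (cst F) P) (k * τ) i j
  unfold cf at e1
  rw [e1]
  have hco : ∀ m : Fin 2 →₀ ℕ, ∀ b : ℝ, ((map (cst F) P).coeff m).coeff b =
      if b = 0 then P.coeff m else 0 := by
    intro m b
    rw [coeff_map]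
    show (HahnSeries.C (P.coeff m)).coeff b = _
    by_cases hb : b = 0
    · rw [if_pos hb, hb]
      simp
    · rw [if_neg hb]
      show (HahnSeries.single (0 : ℝ) (P.coeff m)).coeff b = 0
      rw [HahnSeries.coeff_single_of_ne hb]
  have hz : ∀ m : Fin 2 →₀ ℕ, m ≠ Finsupp.single 0 k →
      (if (m 0 : ℤ) - (m 1 : ℤ) = i ∧ 0 ≤ j then ((m 1).choose j.toNat : F) *
        ((map (cst F) P).coeff m).coeff
          (k * τ - (m 0 : ℝ) * τ - (m 1 : ℝ) * (1 - τ) - (j : ℝ) * (s - 1)) else 0) = 0 := by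
    intro m hm
    split_ifs with hc
    · rw [hco]
      split_ifs with hb
      · by_cases hch : (m 1).choose j.toNat = 0
        · rw [hch, Nat.cast_zero, zero_mul]
        · exfalso
          have hj : (0 : ℝ) ≤ j := by exact_mod_cast hc.2
          have hj' : (0 : ℝ) ≤ (j : ℝ) * (s - 1) := mul_nonneg hj (by linarith)
          have hm0 : (0 : ℝ) ≤ (m 0 : ℝ) * τ := by positivity
          have hm1 : m 1 = 0 := by
            by_contra hne
            have h3 : (1 : ℝ) ≤ m 1 := by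
              exact_mod_cast Nat.one_le_iff_ne_zero.2 hne
            nlinarith
          have hj0 : j.toNat = 0 := by
            by_contra hne
            apply hch
            rw [hm1]
            exact Nat.choose_eq_zero_of_lt (Nat.pos_of_ne_zero hne)
          have hj1 : j = 0 := by omega
          rw [hm1, hj1] at hb
          have h4 : ((k : ℝ) - m 0) * τ = 0 := by
            push_cast at hb
            linarith
          rcases mul_eq_zero.1 h4 with h5 | h5
          · apply hm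
            have h6 : m 0 = k := by
              have : (m 0 : ℝ) = k := by linarith
              exact_mod_cast this
            ext l
            fin_cases l
            · simp [h6]
            · simp [hm1]
          · linarith
      · rw [mul_zero]
    · rfl
  rw [Finset.sum_eq_single (Finsupp.single 0 k) (fun m _ hm => hz m hm)]
  · by_cases hm : (((k : ℤ), (0 : ℤ)) : ℤ × ℤ) = (i, j)
    · have h2 := Prod.ext_iff.1 hm
      simp only at h2
      obtain ⟨h2, h3⟩ := h2
      subst h2 h3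
      rw [hco]
      simp
    · have h3 : (AddMonoidAlgebra.single ((k : ℤ), (0 : ℤ)) (P.coeff (Finsupp.single 0 k)) :
          Lau F).coeff (i, j) = 0 := by
        simp [hm]
      rw [h3]
      split_ifs with hc
      · have h4 : ((Finsupp.single (0 : Fin 2) k) 1 : ℕ) = 0 := by simp
        have h5 : ((Finsupp.single (0 : Fin 2) k) 0 : ℕ) = k := by simp
        rw [h4, h5] at hc ⊢
        have hj0 : j.toNat ≠ 0 := by
          intro h6
          apply hm
          have h7 : j = 0 := by omega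
          rw [h7, ← hc.1]
          simp
        rw [Nat.choose_eq_zero_of_lt (Nat.pos_of_ne_zero hj0), Nat.cast_zero, zero_mul]
      · rfl
  · intro hm
    rw [notMem_support_iff] at hm
    rw [hm]
    simp

theorem ne_of_coeff {x y : F} (hx : x ≠ 0) (hy : y ≠ 0) {u : HR F} {a : ℝ} {i j : ℤ} {c : F}
    (hc : c ≠ 0) (h : u.coeff a = AddMonoidAlgebra.single (i, j) c) : evp hx hy u ≠ 0 := by
  intro h0
  have h1 := evp_coeff hx hy u a
  rw [h0, h, HahnSeries.coeff_zero] at h1
  have h2 := Pool.Agent.TH176.Nag.evL_mon x y hx hy (i, j)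
  have h3 : Pool.Agent.TH176.Nag.evL x y hx hy (AddMonoidAlgebra.single (i, j) 1) =
      x ^ i * y ^ j := h2
  have h4 : (AddMonoidAlgebra.single (i, j) c : Lau F) = c • AddMonoidAlgebra.single (i, j) 1 := by
    rw [AddMonoidAlgebra.smul_single, smul_eq_mul, mul_one]
  rw [h4, map_smul, h3, smul_eq_mul] at h1
  exact (mul_ne_zero hc (mul_ne_zero (zpow_ne_zero _ hx) (zpow_ne_zero _ hy))) h1.symm

theorem dA_eq {R : Type} [CommRing R] (x w : R) : dA x w = x + x * x * (x - 2) +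
    w * ((1 - x) ^ 2 * (x * (-4 + 3 * w) * (2 - 4 * w + 3 * w ^ 2) +
      (1 - w) ^ 2 * (3 - x) ^ 2)) := by
  unfold dA
  ring

theorem dB_eq {R : Type} [CommRing R] (x w : R) : dB x w = 9 * x + x * x * (x - 6) +
    w * ((3 - x) ^ 2 * (x * (-4 + 3 * w) * (2 - 4 * w + 3 * w ^ 2) +
      (1 - 3 * w) ^ 2 * (1 - x) ^ 2)) := by
  unfold dB
  ring

theorem coeff_lin (a b : MvPolynomial (Fin 2) F) (c : F) :
    (C c * X 0 + X 0 * X 0 * a + X 1 * b : MvPolynomial (Fin 2) F).coeff (Finsupp.single 0 1) =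
      c := by
  classical
  rw [coeff_add, coeff_add, coeff_C_mul, coeff_X', if_pos rfl, mul_one, mul_assoc, coeff_X_mul',
    coeff_X_mul', if_pos (by simp), if_neg (by simp)]
  rw [coeff_X_mul', if_neg (by simp)]
  ring

theorem tubeU_ne {x y : F} [CharZero F] (hΘ : S_THETA) (hx : x ≠ 0) (hy : y ≠ 0) {τ s : ℝ}
    (h0 : 0 < τ) (h1 : τ < 1 / 2) (hs : 1 ≤ s) (v : MvPolynomial (Fin 2) F) (l : ZMod 3) :
    evp hx hy (tubeU τ s v l) ≠ 0 := by
  have hl : l = 0 ∨ l = 1 ∨ l = 2 := by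
    revert l; decide
  rcases hl with rfl | rfl | rfl
  · refine ne_of_coeff hx hy (c := (9 : F)) (by norm_num) (i := 0) (j := 0) (a := 0) ?_
    have h := th_coeff hΘ h0 h1 hs (pu v 0) 0 (by norm_num)
    have h2 : (pu v 0).coeff (Finsupp.single 0 0) = (9 : F) := by
      rw [Finsupp.single_zero, ← constantCoeff_eq, pu, vec_zero, dD]
      simp
      rw [show (constantCoeff (3 : MvPolynomial (Fin 2) F)) = 3 from map_ofNat _ 3]
      norm_num
    rw [h2] at h
    simp only [Nat.cast_zero, zero_mul] at h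
    exact h
  · refine ne_of_coeff hx hy (c := (1 : F)) one_ne_zero (i := 1) (j := 0) (a := τ) ?_
    have h := th_coeff hΘ h0 h1 hs (pu v 1) 1 le_rfl
    have h2 : (pu v 1).coeff (Finsupp.single 0 1) = (1 : F) := by
      rw [pu, vec_one, dA_eq, mul_assoc (X 1) v]
      have := coeff_lin (F := F) (X 0 - 2) (v * ((1 - X 0) ^ 2 * (X 0 * (-4 + 3 * (X 1 * v)) *
        (2 - 4 * (X 1 * v) + 3 * (X 1 * v) ^ 2) + (1 - (X 1 * v)) ^ 2 * (3 - X 0) ^ 2))) 1
      rw [C_1, one_mul] at this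
      exact this
    rw [h2] at h
    simp only [Nat.cast_one, one_mul] at h
    exact h
  · refine ne_of_coeff hx hy (c := (9 : F)) (by norm_num) (i := 1) (j := 0) (a := τ) ?_
    have h := th_coeff hΘ h0 h1 hs (pu v 2) 1 le_rfl
    have h2 : (pu v 2).coeff (Finsupp.single 0 1) = (9 : F) := by
      rw [pu, vec_two, dB_eq, mul_assoc (X 1) v]
      have := coeff_lin (F := F) (X 0 - 6) (v * ((3 - X 0) ^ 2 * (X 0 * (-4 + 3 * (X 1 * v)) *
        (2 - 4 * (X 1 * v) + 3 * (X 1 * v) ^ 2) + (1 - 3 * (X 1 * v)) ^ 2 * (1 - X 0) ^ 2))) 9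
      rw [show (C (9 : F) : MvPolynomial (Fin 2) F) = 9 from map_ofNat C 9] at this
      exact this
    rw [h2] at h
    simp only [Nat.cast_one, one_mul] at h
    exact h

theorem s_EMP (hT : S_TUBE) (hΘ : S_THETA) (hA : S_ASM) : S_EMP := by
  intro ι w d τ h0 h1 h
  obtain ⟨F, _, _, x, y, hx, hy, hE⟩ := h
  obtain ⟨s, hs⟩ : ∃ s : ℝ, s = 4 * (d : ℝ) + 2 := ⟨_, rfl⟩
  have hd : (0 : ℝ) ≤ d := Nat.cast_nonneg d
  have hs1 : 4 * (d : ℝ) + 1 < s := by rw [hs]; linarith
  have hs2 : 1 ≤ s := by rw [hs]; linarith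
  have hmin : 0 < min τ (1 - τ) := lt_min h0 (by linarith)
  obtain ⟨n, hn⟩ := exists_nat_gt (s / min τ (1 - τ))
  rw [div_lt_iff₀ hmin] at hn
  obtain ⟨v, hv⟩ := hT F n
  have hchar : CharZero (HK F) :=
    charZero_of_injective_ringHom (f := (HahnSeries.C : F →+* HK F)) HahnSeries.C_injective
  have hU : ∀ i l, evp (hx i) (hy i) (tubeU τ s v l) ≠ 0 :=
    fun i l => tubeU_ne hΘ (hx i) (hy i) h0 h1 hs2 v l
  refine ⟨HK F, inferInstance, hchar,
    fun i => evp (hx i) (hy i) (tubeU τ s v 1) / evp (hx i) (hy i) (tubeU τ s v 0),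
    fun i => evp (hx i) (hy i) (tubeU τ s v 2) / evp (hx i) (hy i) (tubeU τ s v 0),
    fun i => div_ne_zero (hU i 1) (hU i 0), fun i => div_ne_zero (hU i 2) (hU i 0), ?_⟩
  intro f hf hLM
  by_contra hne
  have hf' : ∀ m ∈ f.support, 0 ≤ m.1 ∧ 0 ≤ m.2 ∧ m.1 + m.2 ≤ (d : ℤ) := fun m hm => hf hm
  obtain ⟨a, _, ha, hb⟩ := hA F τ s n d v (hom d f) h0 (by linarith) hs1 hn hv
    (hom_isHomogeneous hf') (hom_ne_zero hf' hne)
  have h2 : ((ev (tubeU τ s v) (hom d f)).coeff a).coeff = 0 := by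
    apply hE
    · intro m hm
      exact hb m.1 m.2 (Finsupp.mem_support_iff.1 hm)
    · intro i
      exact LM_transfer (hx i) (hy i) (hU i) hf' (hLM i) a
  apply ha
  ext m
  rw [h2]
  rfl

end Pool.Agent.L7h23.NQ
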