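import Pool.Agent.L7h52.NQ.Stm
import Pool.Agent.TH603.Sur.Flat

/-!
# Project NQ, part ONE (helper23): one sector
-/

namespace Pool.Agent.L7h23.NQ

open Pool.Agent.L7h52.NQ
open Pool.Agent.TH176.Nag (Emp)
open Pool.Agent.TH603.Sur (Sur TZ)

theorem s_ONE : S_ONE := by
  intro K d _ hK1 hK2
  -- the numbers in the rows
  have hrow : ∀ j : ℤ, 0 ≤ j → 4 * j ≤ d → ∃ e : ℕ, (e : ℤ) = d - 4 * j ∧ d - 4 * j.toNat = e ∧
      (e : ℝ) = d - 4 * j := by
    intro j h1 h2
    refine ⟨d - 4 * j.toNat, by omega, rfl, ?_⟩
    have h3 : ((d - 4 * j.toNat : ℕ) : ℤ) = d - 4 * j := by omega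
    exact_mod_cast h3
  have hh2 : ∀ e : ℕ, 2 ≤ e → ((hh e : ℕ) : ℝ) = 4 * e - 2 := by
    intro e he
    have h1 : hh e = 4 * e - 2 := by
      unfold hh
      rw [if_neg (by omega), if_neg (by omega)]
    rw [h1, Nat.cast_sub (by omega)]
    push_cast
    ring
  have hh1 : ((hh 1 : ℕ) : ℝ) = 3 := by
    unfold hh
    norm_num
  constructor
  · intro hd ι w h
    refine h.comap 1 (-8) 0 1 (2 * d - 1) 0 (by norm_num) ?_
    rintro ⟨i, j⟩ ⟨g1, g2, g3, g4⟩
    simp only at g1 g2 g3 g4
    obtain ⟨e, he1, he2, he3⟩ := hrow j g1 g2
    rw [he2] at g3 g4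
    have he0 : 1 ≤ e := by
      rcases Nat.eq_zero_or_pos e with h0 | h0
      · exfalso
        apply hd
        rw [h0] at he1
        refine ⟨j.toNat, ?_⟩
        omega
      · exact h0
    rcases Nat.lt_or_ge e 2 with h5 | h5
    · have h6 : e = 1 := by omega
      subst h6
      rw [hh1] at g3 g4
      push_cast at he3
      have i1 : (-2 : ℝ) < i := by linarith
      have i2 : (i : ℝ) < 2 := by linarith
      have i3 : -2 < i := by exact_mod_cast i1
      have i4 : i < 2 := by exact_mod_cast i2
      have hx : (1 * i + -8 * j + (2 * d - 1) : ℤ) = i + 1 := by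
        push_cast at he1
        linarith
      have h8 : (2 * (d : ℝ) - 1) / 8 - (0 + 1 * (j : ℝ) + 0) = 1 / 8 := by linarith
      simp only
      rw [hx]
      rcases (by omega : i = -1 ∨ i = 0 ∨ i = 1) with h7 | h7 | h7
      · right
        refine ⟨by simp only; omega, by simp only; omega, by simp only; push_cast at he1; omega⟩
      · left
        refine ⟨by simp only; omega, ?_, ?_⟩
        · simp only
          rw [h7]
          push_cast
          rw [h8]
          linarith
        · simp only
          rw [h7]
          push_cast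
          rw [h8]
          linarith
      · left
        refine ⟨by simp only; omega, ?_, ?_⟩
        · simp only
          rw [h7]
          push_cast
          rw [h8]
          linarith
        · simp only
          rw [h7]
          push_cast
          rw [h8]
          linarith
    · left
      rw [hh2 e h5] at g3 g4
      refine ⟨by simp only; omega, ?_, ?_⟩
      · simp only
        push_cast
        rw [he3] at g3
        linarith
      · simp only
        push_cast
        rw [he3] at g4
        linarith
  · intro ι _ w h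
    refine h.comap 1 (-8) 0 1 (2 * d - 1) 0 (by norm_num) ?_
    rintro ⟨x, j⟩ ⟨g1, g2, g3⟩
    simp only at g1 g2 g3
    have hη : (0 : ℝ) ≤ (2 * (d : ℝ) - 1) / 8 - j := by
      by_contra hc
      push Not at hc
      nlinarith
    have hj : 4 * j + 1 ≤ d := by
      have h1 : 8 * (j : ℝ) ≤ 2 * d - 1 := by linarith
      have h2 : 8 * j ≤ 2 * (d : ℤ) - 1 := by exact_mod_cast h1
      omega
    obtain ⟨e, he1, he2, he3⟩ := hrow j g1 (by omega)
    refine ⟨(x - (2 * d - 1) + 8 * j, j), ⟨g1, by simp only; omega, ?_, ?_⟩, ?_⟩
    · simp only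
      rw [he2]
      rcases Nat.lt_or_ge e 2 with h5 | h5
      · have h6 : e = 1 := by omega
        subst h6
        rw [hh1]
        push_cast at he3 ⊢
        have x1 : (0 : ℝ) < x := by nlinarith
        have x2 : 0 < x := by exact_mod_cast x1
        have x3 : (1 : ℝ) ≤ x := by exact_mod_cast x2
        linarith
      · rw [hh2 e h5, he3]
        push_cast
        linarith
    · simp only
      rw [he2]
      rcases Nat.lt_or_ge e 2 with h5 | h5
      · have h6 : e = 1 := by omega
        subst h6
        rw [hh1]
        push_cast at he3 ⊢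
        have x1 : (x : ℝ) < 3 := by nlinarith
        have x2 : x < 3 := by exact_mod_cast x1
        have x3 : (x : ℝ) ≤ 2 := by
          have : x ≤ 2 := by omega
          exact_mod_cast this
        linarith
      · rw [hh2 e h5, he3]
        push_cast
        linarith
    · ext
      · simp only; ring
      · simp only; ring

end Pool.Agent.L7h23.NQ
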